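import Pool.Agent.Helper2.MK.Star

/-!
# Lines in the boundary of the image of an injective developing map
-/

set_option autoImplicit false
set_option linter.unusedSectionVars false

open Set MeasureTheory Metric Filter Topology
open scoped NNReal ENNReal

namespace Pool.Agent.Helper4.MKT

open Pool.Agent.Helper2.MK

universe u

variable {V : Type*} [NormedAddCommGroup V] [NormedSpace ℝ V] [FiniteDimensional ℝ V]
  [MeasurableSpace V] [BorelSpace V]
variable {Y : Type u} [TopologicalSpace Y] [T2Space Y]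
variable {G : Type*} [Group G] [MulAction G Y] [ContinuousConstSMul G Y]
variable {D : Y → V} {h : G →* (V ≃ᵃ[ℝ] V)}

/-- Through every boundary point of the image of an injective developing map passes a line
contained in the boundary. -/
theorem line_in_frontier (hPD : PD G Y) (hDloc : IsLocalHomeomorph D)
    (hD : ∀ (g : G) y, D (g • y) = h g (D y))
    (hdet : ∀ g, |LinearMap.det ((h g).linear : V →ₗ[ℝ] V)| = 1)
    (hcoc : ∃ K : Set Y, IsCompact K ∧ ∀ y, ∃ g : G, g • y ∈ K)
    (hinj : Function.Injective D) {a : V} (ha : a ∈ frontier (range D)) :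
    ∃ v : V, v ≠ 0 ∧ ∀ t : ℝ, a + t • v ∈ frontier (range D) := by
  classical
  have : ProperSpace V := FiniteDimensional.proper ℝ V
  have hopen : IsOpen (range D) := hDloc.isOpenMap.isOpen_range
  rw [hopen.frontier_eq] at ha
  obtain ⟨hacl, hanot⟩ := ha
  have hDemb : IsOpenEmbedding D := hDloc.isOpenEmbedding_of_injective hinj
  obtain ⟨K, hK, hKcov⟩ := hcoc
  choose g hg using hKcov
  -- an ultrafilter converging to the boundary point
  have hne : (comap D (𝓝 a)).NeBot := by
    rw [comap_neBot_iff]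
    intro t ht
    obtain ⟨x, hx, y, rfl⟩ := mem_closure_iff_nhds.mp hacl t ht
    exact ⟨y, hx⟩
  obtain ⟨U, hU⟩ := Ultrafilter.exists_le (comap D (𝓝 a))
  have hDa : Tendsto D U (𝓝 a) := map_le_iff_le_comap.mpr hU
  set κ : Y → V := fun y => D (g y • y) with hκ
  set ℓ : Y → (V →L[ℝ] V) := fun y => clin (h (g y)⁻¹) with hℓ
  have hKc : IsCompact (D '' K) := hK.image hDloc.continuous
  obtain ⟨k, hkK, hk⟩ : ∃ k ∈ D '' K, Tendsto κ U (𝓝 k) := by
    obtain ⟨k, hkK, hk⟩ := hKc.ultrafilter_le_nhds (U.map κ) (by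
      rw [le_principal_iff]
      exact mem_map.mpr (univ_mem' fun y => ⟨_, hg y, rfl⟩))
    exact ⟨k, hkK, hk⟩
  have hkR : k ∈ range D := image_subset_range _ _ hkK
  -- the affine maps
  have haff : ∀ y x, h (g y)⁻¹ (κ y + x) = D y + ℓ y x := by
    intro y x
    have h1 : h (g y)⁻¹ (κ y) = D y := by
      simp only [hκ]
      rw [← hD, inv_smul_smul]
    rw [← h1, affine_apply (h (g y)⁻¹) (κ y + x), affine_apply (h (g y)⁻¹) (κ y), map_add]
    abel
  have hdetℓ : ∀ y, |(ℓ y).det| = 1 := fun y => hdet _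
  -- the linear parts are unbounded
  have hunb : Tendsto (fun y => ‖ℓ y‖) U atTop := by
    by_contra hcon
    rw [Filter.tendsto_atTop] at hcon
    push Not at hcon
    obtain ⟨C, hC⟩ := hcon
    have hC' : ∀ᶠ y in (U : Filter Y), ℓ y ∈ closedBall (0 : V →L[ℝ] V) C := by
      filter_upwards [hC] with y hy
      rw [mem_closedBall, dist_zero_right]
      exact hy.le
    have hcomp : IsCompact (closedBall (0 : V →L[ℝ] V) C) := by
      have : ProperSpace (V →L[ℝ] V) := FiniteDimensional.proper ℝ _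
      exact isCompact_closedBall _ _
    obtain ⟨L, _, hL⟩ := hcomp.ultrafilter_le_nhds (U.map ℓ) (by
      rw [le_principal_iff]
      exact hC')
    have hL' : Tendsto ℓ U (𝓝 L) := hL
    have hdetL : |L.det| = 1 := by
      have h1 : Tendsto (fun y => |(ℓ y).det|) U (𝓝 |L.det|) :=
        ((continuous_abs.comp ContinuousLinearMap.continuous_det).tendsto L).comp hL'
      have h2 : Tendsto (fun y => |(ℓ y).det|) U (𝓝 1) := by
        simp only [hdetℓ]
        exact tendsto_const_nhds
      exact tendsto_nhds_unique h1 h2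
    have hdet0 : L.det ≠ 0 := by
      intro h0
      rw [h0, abs_zero] at hdetL
      exact zero_ne_one hdetL
    set E := L.toContinuousLinearEquivOfDetNeZero hdet0 with hE
    have hanti := E.antilipschitz
    -- a lower bound for L
    obtain ⟨c, hc, hcL⟩ : ∃ c : ℝ, 0 < c ∧ ∀ x, c * ‖x‖ ≤ ‖L x‖ := by
      refine ⟨(‖(E.symm : V →L[ℝ] V)‖ + 1)⁻¹, by positivity, fun x => ?_⟩
      rw [inv_mul_le_iff₀ (by positivity)]
      have h1 : E.symm (L x) = x := E.symm_apply_apply x
      calc ‖x‖ = ‖(E.symm : V →L[ℝ] V) (L x)‖ := by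
            conv_lhs => rw [← h1]
            rfl
        _ ≤ ‖(E.symm : V →L[ℝ] V)‖ * ‖L x‖ := ContinuousLinearMap.le_opNorm _ _
        _ ≤ (‖(E.symm : V →L[ℝ] V)‖ + 1) * ‖L x‖ := by
            gcongr
            linarith
    have hclose : ∀ᶠ y in (U : Filter Y), ‖ℓ y - L‖ < c / 2 := by
      have := hL' (ball_mem_nhds L (half_pos hc))
      filter_upwards [this] with y hy
      rwa [mem_preimage, mem_ball, dist_eq_norm] at hy
    have hlow : ∀ᶠ y in (U : Filter Y), ∀ x, c / 2 * ‖x‖ ≤ ‖ℓ y x‖ := by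
      filter_upwards [hclose] with y hy x
      have h1 : ‖L x‖ ≤ ‖ℓ y x‖ + ‖(ℓ y - L) x‖ := by
        have : L x = ℓ y x - (ℓ y - L) x := by simp
        conv_lhs => rw [this]
        exact norm_sub_le _ _
      have h2 : ‖(ℓ y - L) x‖ ≤ c / 2 * ‖x‖ :=
        ((ℓ y - L).le_opNorm x).trans (by gcongr)
      have h3 := hcL x
      linarith
    -- the preimages of the boundary point
    set w : Y → V := fun y => (h (g y)⁻¹).symm a with hw
    have hwa : ∀ y, h (g y)⁻¹ (w y) = a := fun y => AffineEquiv.apply_symm_apply _ _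
    have hwκ : ∀ y, ℓ y (w y - κ y) = a - D y := by
      intro y
      have h1 := haff y (w y - κ y)
      rw [add_sub_cancel, hwa] at h1
      rw [h1]
      abel
    have hwt : Tendsto (fun y => w y - κ y) U (𝓝 0) := by
      rw [tendsto_zero_iff_norm_tendsto_zero]
      have h1 : Tendsto (fun y => (c / 2)⁻¹ * ‖a - D y‖) U (𝓝 0) := by
        have h2 : Tendsto (fun y => ‖a - D y‖) U (𝓝 0) := by
          have := (tendsto_const_nhds (x := a)).sub hDa
          rw [sub_self] at this
          simpa using this.norm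
        simpa using h2.const_mul ((c / 2)⁻¹)
      refine squeeze_zero' (Eventually.of_forall fun y => norm_nonneg _) ?_ h1
      filter_upwards [hlow] with y hy
      have h3 := hy (w y - κ y)
      rw [hwκ] at h3
      rw [le_inv_mul_iff₀ (by positivity)]
      exact h3
    have hwk : Tendsto w U (𝓝 k) := by
      have := hwt.add hk
      simpa using this
    obtain ⟨y, hy⟩ := (hwk.eventually (hopen.mem_nhds hkR)).exists
    obtain ⟨z, hz⟩ : w y ∈ range D := hy
    apply hanot
    refine ⟨(g y)⁻¹ • z, ?_⟩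
    rw [hD, hz]
    exact hwa y
  -- directions of maximal expansion
  have hdir : ∀ y, ∃ v : V, ‖v‖ ≤ 1 ∧ ‖ℓ y‖ / 2 ≤ ‖ℓ y v‖ := by
    intro y
    by_cases h0 : ‖ℓ y‖ = 0
    · exact ⟨0, by simp, by simp [h0]⟩
    · by_contra hcon
      push Not at hcon
      have h1 : ‖ℓ y‖ ≤ ‖ℓ y‖ / 2 := by
        apply ContinuousLinearMap.opNorm_le_of_unit_norm (by positivity)
        intro x hx
        exact (hcon x hx.le).le
      have h2 : 0 < ‖ℓ y‖ := lt_of_le_of_ne (norm_nonneg _) (Ne.symm h0)
      linarith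
  choose v hv1 hv2 using hdir
  set σ : Y → ℝ := fun y => ‖ℓ y (v y)‖ with hσ
  have hσt : Tendsto σ U atTop :=
    tendsto_atTop_mono hv2 (hunb.atTop_div_const two_pos)
  set e : Y → V := fun y => (σ y)⁻¹ • ℓ y (v y) with he
  have he1 : ∀ᶠ y in (U : Filter Y), e y ∈ sphere (0 : V) 1 := by
    filter_upwards [hσt.eventually_gt_atTop 0] with y hy
    rw [mem_sphere, dist_zero_right, he]
    simp only
    rw [norm_smul, norm_inv, Real.norm_of_nonneg hy.le]
    exact inv_mul_cancel₀ hy.ne'
  obtain ⟨e₀, he₀, het⟩ := (isCompact_sphere (0 : V) 1).ultrafilter_le_nhds (U.map e) (by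
    rw [le_principal_iff]
    exact he1)
  have het' : Tendsto e U (𝓝 e₀) := het
  have he₀ne : e₀ ≠ 0 := by
    rintro rfl
    rw [mem_sphere, dist_self] at he₀
    exact zero_ne_one he₀
  refine ⟨e₀, he₀ne, fun s => ?_⟩
  set z : Y → V := fun y => κ y + (s * (σ y)⁻¹) • v y with hz
  have hzk : Tendsto z U (𝓝 k) := by
    have h1 : Tendsto (fun y => (s * (σ y)⁻¹) • v y) U (𝓝 0) := by
      rw [tendsto_zero_iff_norm_tendsto_zero]
      have h2 : Tendsto (fun y => |s * (σ y)⁻¹|) U (𝓝 0) := by
        have := (hσt.inv_tendsto_atTop.const_mul s).abs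
        simpa using this
      refine squeeze_zero (fun y => norm_nonneg _) (fun y => ?_) h2
      rw [norm_smul, Real.norm_eq_abs]
      exact mul_le_of_le_one_right (abs_nonneg _) (hv1 y)
    have := hk.add h1
    simpa using this
  have himg : ∀ y, h (g y)⁻¹ (z y) = D y + s • e y := by
    intro y
    rw [hz]
    simp only
    rw [haff, map_smul, he]
    simp only
    rw [smul_smul]
  have hlim : Tendsto (fun y => D y + s • e y) U (𝓝 (a + s • e₀)) :=
    hDa.add (het'.const_smul s)
  rw [hopen.frontier_eq]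
  constructor
  · apply mem_closure_of_tendsto hlim
    filter_upwards [hzk (hopen.mem_nhds hkR)] with y hy
    obtain ⟨w, hw⟩ : z y ∈ range D := hy
    refine ⟨(g y)⁻¹ • w, ?_⟩
    rw [hD, hw, himg]
  · intro hb
    obtain ⟨N1, hN1c, hN1, hN1R⟩ := exists_compact_between (isCompact_singleton (x := k)) hopen
      (singleton_subset_iff.mpr hkR)
    obtain ⟨N2, hN2c, hN2, hN2R⟩ := exists_compact_between
      (isCompact_singleton (x := a + s • e₀)) hopen (singleton_subset_iff.mpr hb)
    rw [singleton_subset_iff] at hN1 hN2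
    have hP1 : IsCompact (D ⁻¹' N1) := hDemb.isInducing.isCompact_preimage' hN1c hN1R
    have hP2 : IsCompact (D ⁻¹' N2) := hDemb.isInducing.isCompact_preimage' hN2c hN2R
    have hfin := hPD.two hP1 hP2
    have hev : ∀ᶠ y in (U : Filter Y), (g y)⁻¹ ∈
        {g : G | (((fun y => g • y) '' (D ⁻¹' N1)) ∩ (D ⁻¹' N2)).Nonempty} := by
      filter_upwards [hzk (isOpen_interior.mem_nhds hN1), hlim (isOpen_interior.mem_nhds hN2)]
        with y hy1 hy2
      have hy1' : z y ∈ N1 := interior_subset hy1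
      have hy2' : D y + s • e y ∈ N2 := interior_subset hy2
      obtain ⟨w, hw⟩ := hN1R hy1'
      refine ⟨(g y)⁻¹ • w, ⟨w, ?_, rfl⟩, ?_⟩
      · rw [mem_preimage, hw]
        exact hy1'
      · rw [mem_preimage, hD, hw, himg]
        exact hy2'
    obtain ⟨M, hM⟩ : ∃ M : ℝ, ∀ g' ∈ {g : G | (((fun y => g • y) '' (D ⁻¹' N1)) ∩
        (D ⁻¹' N2)).Nonempty}, ‖clin (h g')‖ ≤ M := by
      obtain ⟨M, hM⟩ := (hfin.image fun g' => ‖clin (h g')‖).bddAbove
      exact ⟨M, fun g' hg' => hM ⟨g', hg', rfl⟩⟩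
    obtain ⟨y, hy1, hy2⟩ := (hev.and (hunb.eventually_gt_atTop M)).exists
    exact absurd (hM _ hy1) (not_le.mpr hy2)

end Pool.Agent.Helper4.MKT
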