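import Pool.Agent.Helper4.MKT.Local
import Pool.Agent.Helper2.MK.Data

/-!
# Holonomy-invariant retracts contain the developing image

Let `M` be a compact affine manifold with parallel volume, modelled on a finite-dimensional real
vector space `V` (for instance `ℝⁿ`), with developing map `dev : Y → V` and affine holonomy
`hol : G → Aff(V)`.  If a subset `A` of `V` is invariant under the holonomy and is the image of a
locally Lipschitz retraction `r` of `V` (which is not required to be equivariant), then the
developing image is contained in `A`.

In particular (theorem `complete_of_retract_in_complement` below) the Markus conjecture holds for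
every `M = Γ\Ω` whose complement `V \ Ω`, or some invariant part of it, is a locally Lipschitz
retract of `V`.

Idea of the proof.  For every holonomy-equivariant locally Lipschitz map `F : Y → V` and every
bounded Borel function `φ` on `V` invariant under the holonomy, the integral over `M` of
`φ(F) det DF` equals the integral of `φ(dev)`: the weighted determinant `φ(F) det DF` is a null
Lagrangian, because for `φ` a product of functions of the coordinates it is the determinant of the
derivative of a composition `Θ ∘ F`, and the general case follows as the images of the signed
measures `det DF` under `F` are determined by these.  With `φ` the indicator function of an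
invariant Borel set `B` missed by `F` one finds that `B` meets the developing image in a null set.
An equivariant map `F : Y → A` is constructed by induction over a finite cover of `M`.
-/

set_option autoImplicit false

open Set MeasureTheory

namespace Pool.Agent.Results.MP_df2bd8_gt.InvariantRetract

open Pool.Agent.Helper2.MK

/-- Every holonomy-invariant subset of `V` which is a locally Lipschitz retract of `V` contains the
developing image, for every compact affine manifold with parallel volume. -/
theorem result {V G Y : Type*} [NormedAddCommGroup V] [NormedSpace ℝ V] [FiniteDimensional ℝ V]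
    [Group G] [TopologicalSpace Y] [T2Space Y] [MulAction G Y]
    (M : AffineDeveloping V G Y) (A : Set V) (hinv : M.Invariant A) (r : V → V)
    (hr : LocallyLipschitz r) (hrA : ∀ x, r x ∈ A) (hid : ∀ x ∈ A, r x = x) :
    range M.dev ⊆ A := by
  have : ContinuousConstSMul G Y := ⟨M.covering.continuous_smul⟩
  let _ : MeasurableSpace V := borel V
  have : BorelSpace V := ⟨rfl⟩
  exact Pool.Agent.Helper4.MKT.range_subset_retract (h := M.holHom)
    (fun K hK => M.covering.proper K hK) M.covering.free M.dev_local M.dev_smul M.volume_hol
    M.covering.cocompact hinv hr hrA hid

/-- The Markus conjecture for compact affine manifolds with injective developing map such that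
the complement of its image is empty or contains a nonempty invariant locally Lipschitz retract. -/
theorem complete_of_retract_in_complement {V G Y : Type*} [NormedAddCommGroup V]
    [NormedSpace ℝ V] [FiniteDimensional ℝ V] [Group G] [TopologicalSpace Y] [T2Space Y]
    [Nonempty Y] [MulAction G Y] (M : AffineDeveloping V G Y) (hinj : Function.Injective M.dev)
    (h : (range M.dev)ᶜ.Nonempty → ∃ A ⊆ (range M.dev)ᶜ, M.Invariant A ∧ ∃ r : V → V,
      LocallyLipschitz r ∧ (∀ x, r x ∈ A) ∧ ∀ x ∈ A, r x = x) :
    ∃ e : Y ≃ₜ V, ⇑e = M.dev := by
  have h1 : range M.dev = univ := by
    by_contra hne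
    obtain ⟨A, hA, hinv, r, hr, hrA, hid⟩ := h (nonempty_compl.mpr hne)
    obtain ⟨y⟩ := ‹Nonempty Y›
    exact hA (result M A hinv r hr hrA hid (mem_range_self y)) (mem_range_self y)
  exact ⟨M.dev_local.toHomeomorphOfBijective ⟨hinj, range_eq_univ.mp h1⟩, rfl⟩

/-- An invariant locally Lipschitz retract has positive measure. -/
theorem positive_measure {V G Y : Type*} [NormedAddCommGroup V] [NormedSpace ℝ V]
    [FiniteDimensional ℝ V] [MeasurableSpace V] [BorelSpace V] [Group G] [TopologicalSpace Y]
    [T2Space Y] [Nonempty Y] [MulAction G Y] (M : AffineDeveloping V G Y) (A : Set V)
    (hinv : M.Invariant A) (r : V → V) (hr : LocallyLipschitz r) (hrA : ∀ x, r x ∈ A)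
    (hid : ∀ x ∈ A, r x = x) (μ : Measure V) [μ.IsAddHaarMeasure] : 0 < μ A :=
  (M.dev_local.isOpenMap.isOpen_range.measure_pos μ (range_nonempty _)).trans_le
    (measure_mono (result M A hinv r hr hrA hid))

end Pool.Agent.Results.MP_df2bd8_gt.InvariantRetract
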