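import Pool.Agent.Helper4.MKT.Weight
import Pool.Agent.Helper2.MK.Null

/-!
# The localised volume class of a compact affine manifold

The integral over `M` of `φ (F) det DF` is the same for all equivariant locally Lipschitz maps `F`,
where `φ` is any bounded Borel function invariant under the holonomy.
-/

set_option autoImplicit false
set_option linter.unusedSectionVars false

open Set MeasureTheory Metric Filter Topology
open scoped NNReal ENNReal

namespace Pool.Agent.Helper4.MKT

open Pool.Agent.Helper2.MK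

universe u

variable {V : Type*} [NormedAddCommGroup V] [NormedSpace ℝ V] [FiniteDimensional ℝ V]
  [MeasurableSpace V] [BorelSpace V] (μ : Measure V) [μ.IsAddHaarMeasure]
variable {Y : Type u} [TopologicalSpace Y] [T2Space Y]
variable {G : Type*} [Group G] [MulAction G Y] [ContinuousConstSMul G Y]
variable {D : Y → V} {h : G →* (V ≃ᵃ[ℝ] V)}

theorem dInt_weight {F : Y → V} (hDc : Continuous D) (hFl : DLip D F) {φ : V → ℝ}
    (hφ : Measurable φ) {C : ℝ} (hC : ∀ x, |φ x| ≤ C) :
    DInt μ D (fun y => φ (F y) * (dd D F y).det) := by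
  intro e he K hK hKc
  have h1 := hFl.dInt_det μ e he K hK hKc
  have hsub := image_subset_target he hK
  have hm := (isCompact_image he hK hKc).measurableSet
  have h2 : ContinuousOn (F ∘ e.symm) (D '' K) :=
    (hFl.continuous hDc).comp_continuousOn (e.continuousOn_symm.mono hsub)
  have h3 : AEStronglyMeasurable (fun x => φ (F (e.symm x))) (μ.restrict (D '' K)) :=
    (hφ.comp_aemeasurable (h2.aemeasurable hm)).aestronglyMeasurable
  exact h1.bdd_mul h3 (ae_of_all _ fun x => by rw [Real.norm_eq_abs]; exact hC _)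

section key

variable {J : Type*} [Fintype J] {e : J → OpenPartialHomeomorph Y V} {S : J → Set Y}
  {ρ : J → Y → ℝ}

/-- The weighted volume integral of an equivariant map. -/
noncomputable def wInt (D : Y → V) (e : J → OpenPartialHomeomorph Y V) (S : J → Set Y)
    (ρ : J → Y → ℝ) (φ : V → ℝ) (F : Y → V) : ℝ :=
  ∑ j, ∫ x in D '' S j, ρ j ((e j).symm x) *
    (φ (F ((e j).symm x)) * (dd D F ((e j).symm x)).det) ∂μ

theorem one_step_w (hPD : PD G Y) (hDloc : IsLocalHomeomorph D)
    (hD : ∀ (g : G) y, D (g • y) = h g (D y))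
    (hdet : ∀ g, |LinearMap.det ((h g).linear : V →ₗ[ℝ] V)| = 1)
    (he : ∀ j, ⇑(e j) = D) (hS : ∀ j, IsCompact (S j)) (hSe : ∀ j, S j ⊆ (e j).source)
    (hdisj : ∀ j, ∀ g : G, g ≠ 1 → Disjoint ((fun z => g • z) '' (e j).source) (e j).source)
    (hρ : ∀ j, DLip D (ρ j)) (hρ0 : ∀ j, ∀ z ∉ S j, ρ j z = 0)
    (hsum : ∀ y, ∀ T : Finset G, (∀ g ∉ T, ∀ j, ρ j (g • y) = 0) →
      ∑ g ∈ T, ∑ j, ρ j (g • y) = 1)
    {φ : V → ℝ} (hφ : Measurable φ) {C : ℝ} (hC : ∀ x, |φ x| ≤ C)
    (hφi : ∀ (g : G) x, φ (h g x) = φ x)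
    {F F' : Y → V} (hFl : DLip D F) (hFl' : DLip D F')
    (hF : ∀ (g : G) y, F (g • y) = h g (F y)) (hF' : ∀ (g : G) y, F' (g • y) = h g (F' y))
    (j₀ : J) (heq : ∀ y, (¬ ∃ g : G, y ∈ (fun z => g • z) '' S j₀) → F y = F' y) :
    wInt μ D e S ρ φ F = wInt μ D e S ρ φ F' := by
  have hρc : ∀ j, Continuous (ρ j) := fun j => (hρ j).continuous hDloc.continuous
  have hW := dInt_weight μ hDloc.continuous hFl hφ hC
  have hW' := dInt_weight μ hDloc.continuous hFl' hφ hC
  set Φ : Y → ℝ := fun y => φ (F y) * (dd D F y).det - φ (F' y) * (dd D F' y).det with hΦ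
  have hΦint : DInt μ D Φ := hW.sub μ hW'
  have hclosed := isClosed_saturation hPD hDloc (hS j₀)
  have hmain := unfold_integral μ hPD hD hdet he hS hSe hρ0 hρc hsum (he j₀) (hS j₀) (hSe j₀)
    (fun g hg => (hdisj j₀ g hg).mono (image_mono (hSe j₀)) (hSe j₀)) (Φ := Φ)
    (fun g y => by
      simp only [hΦ, dd_equivariant hDloc hD hF, dd_equivariant hDloc hD hF', hF, hF', hφi])
    (fun y hy => by
      by_contra hcon
      apply hy
      have h1 : ∀ᶠ z in 𝓝 y, F z = F' z := by
        filter_upwards [hclosed.isOpen_compl.mem_nhds hcon] with z hz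
        exact heq z hz
      simp only [hΦ, dd_congr hDloc h1, h1.self_of_nhds, sub_self])
    hΦint
  have hzero : ∫ x in D '' S j₀, Φ ((e j₀).symm x) ∂μ = 0 := by
    have h1 := nl_weight_local μ (e j₀).open_target
      (isCompact_image (he j₀) (hSe j₀) (hS j₀))
      (image_subset_target (he j₀) (hSe j₀)) (hFl.locallyLipschitzOn (he j₀))
      (hFl'.locallyLipschitzOn (he j₀)) (by
        rintro x ⟨hx, hx'⟩
        simp only [Function.comp_apply]
        apply heq
        rintro ⟨g, z, hz, hzx⟩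
        simp only at hzx
        by_cases hg : g = 1
        · apply hx'
          refine ⟨z, hz, ?_⟩
          rw [hg, one_smul] at hzx
          rw [hzx, D_symm (he j₀) hx]
        · exact Set.disjoint_left.mp (hdisj j₀ g hg) ⟨z, hSe j₀ hz, hzx⟩
            ((e j₀).map_target hx)) hφ hC
    have hI1 := hW (e j₀) (he j₀) (S j₀) (hSe j₀) (hS j₀)
    have hI2 := hW' (e j₀) (he j₀) (S j₀) (hSe j₀) (hS j₀)
    have h2 : ∫ x in D '' S j₀, Φ ((e j₀).symm x) ∂μ
        = (∫ x in D '' S j₀, φ (F ((e j₀).symm x)) * (dd D F ((e j₀).symm x)).det ∂μ)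
          - ∫ x in D '' S j₀, φ (F' ((e j₀).symm x)) * (dd D F' ((e j₀).symm x)).det ∂μ :=
      integral_sub hI1 hI2
    have hm := (isCompact_image (he j₀) (hSe j₀) (hS j₀)).measurableSet
    have h3 : ∀ f : Y → V, ∫ x in D '' S j₀, φ (f ((e j₀).symm x)) *
        (dd D f ((e j₀).symm x)).det ∂μ
        = ∫ x in D '' S j₀, φ ((f ∘ (e j₀).symm) x) * (fderiv ℝ (f ∘ (e j₀).symm) x).det ∂μ := by
      intro f
      apply setIntegral_congr_fun hm
      intro x hx
      simp only [Function.comp_apply]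
      rw [dd_symm f (he j₀) (image_subset_target (he j₀) (hSe j₀) hx)]
    rw [h2, h3, h3, h1, sub_self]
  rw [hzero] at hmain
  rw [← sub_eq_zero, ← hmain]
  unfold wInt
  rw [← Finset.sum_sub_distrib]
  refine Finset.sum_congr rfl fun j _ => ?_
  rw [← integral_sub]
  · congr 1
    ext x
    simp only [hΦ]
    ring
  · exact (hW.cont_mul μ (hρc j)) (e j) (he j) (S j) (hSe j) (hS j)
  · exact (hW'.cont_mul μ (hρc j)) (e j) (he j) (S j) (hSe j) (hS j)

end key

theorem measurePreserving_hol (hdet : ∀ g, |LinearMap.det ((h g).linear : V →ₗ[ℝ] V)| = 1)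
    (g : G) : MeasurePreserving (h g) μ μ := affineEquiv_measurePreserving μ (h g) (hdet g)

theorem hol_inv_apply (g : G) (x : V) : h g⁻¹ (h g x) = x := by
  have : (h g⁻¹ * h g) x = x := by rw [← map_mul, inv_mul_cancel, map_one]; rfl
  exact this

/-- **Covering theorem.** If an equivariant locally Lipschitz map misses an invariant Borel set,
then this set meets the developing image in a null set. -/
theorem missed_null (hPD : PD G Y)
    (hfree : ∀ (g : G) (y : Y), g • y = y → g = 1) (hDloc : IsLocalHomeomorph D)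
    (hD : ∀ (g : G) y, D (g • y) = h g (D y))
    (hdet : ∀ g, |LinearMap.det ((h g).linear : V →ₗ[ℝ] V)| = 1)
    (hcoc : ∃ K : Set Y, IsCompact K ∧ ∀ y, ∃ g : G, g • y ∈ K)
    {F : Y → V} (hFl : DLip D F) (hF : ∀ (g : G) y, F (g • y) = h g (F y))
    {B : Set V} (hB : MeasurableSet B) (hBinv : ∀ (g : G), ∀ x ∈ B, h g x ∈ B)
    (hmiss : ∀ y, F y ∉ B) : μ (B ∩ range D) = 0 := by
  classical
  obtain ⟨J, _, e, S, ρ, he, hS, hSe, hdisj, hρ, hρnn, hρ0, hsum⟩ :=
    exists_partition hPD hfree hDloc hD hcoc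
  have hρc : ∀ j, Continuous (ρ j) := fun j => (hρ j).continuous hDloc.continuous
  -- the invariant weights
  set ω : J → Y → ℝ := fun j => gsum (ρ j) (fun _ : G => (1 : ℝ)) with hω
  have hωinv : ∀ j (g : G) y, ω j (g • y) = ω j y := fun j g y => by
    simp only [hω, gsum_smul_left]
  have hωl : ∀ j, DLip D (ω j) := fun j => (hρ j).gsum hPD hDloc hD (hS j) (hρ0 j) _
  have hω0 : ∀ j y, (¬ ∃ g : G, y ∈ (fun z => g • z) '' S j) → ω j y = 0 := by
    intro j y hy
    simp only [hω]
    rw [gsum_eq (T := ∅), Finset.sum_empty]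
    intro g _
    apply hρ0
    intro hcon
    exact hy ⟨g, g⁻¹ • y, hcon, by simp⟩
  have hTex : ∀ y, ∃ T : Finset G, ∀ g ∉ T, ∀ j, ρ j (g • y) = 0 := by
    intro y
    have : ∀ j, ∃ T : Finset G, ∀ g ∉ T, g⁻¹ • y ∉ S j := fun j => exists_finset hPD (hS j) y
    choose T hT using this
    refine ⟨Finset.univ.biUnion fun j => (T j).image (·⁻¹), fun g hg j => hρ0 _ _ ?_⟩
    have := hT j g⁻¹ (fun hcon => hg (Finset.mem_biUnion.mpr
      ⟨j, Finset.mem_univ _, Finset.mem_image.mpr ⟨g⁻¹, hcon, by simp⟩⟩))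
    simpa using this
  have hωsum : ∀ y, ∑ j, ω j y = 1 := by
    intro y
    obtain ⟨T, hT⟩ := hTex y
    rw [← hsum y T hT, Finset.sum_comm]
    refine Finset.sum_congr rfl fun j _ => ?_
    simp only [hω]
    rw [gsum_eq (T := T.image (·⁻¹))]
    · rw [Finset.sum_image (fun a _ b _ hab => inv_injective hab)]
      simp
    · intro g hg
      apply hT
      intro hcon
      exact hg (Finset.mem_image.mpr ⟨g⁻¹, hcon, by simp⟩)
  -- the weight
  set φ : V → ℝ := B.indicator (fun _ => (1 : ℝ)) with hφdef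
  have hφ : Measurable φ := measurable_const.indicator hB
  have hC : ∀ x, |φ x| ≤ 1 := by
    intro x
    simp only [hφdef, Set.indicator]
    split_ifs <;> simp
  have hφi : ∀ (g : G) x, φ (h g x) = φ x := by
    intro g x
    simp only [hφdef, Set.indicator]
    have : h g x ∈ B ↔ x ∈ B := by
      constructor
      · intro hx
        have := hBinv g⁻¹ _ hx
        rwa [hol_inv_apply] at this
      · exact hBinv g x
    simp only [this]
  -- telescoping
  set FA : Finset J → Y → V := fun A y => D y + (∑ j ∈ A, ω j y) • (F y - D y) with hFA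
  have hFAl : ∀ A, DLip D (FA A) := fun A =>
    (DLip.self D).add ((DLip.sum A fun j _ => hωl j).smul hDloc.continuous
      (hFl.sub (DLip.self D)))
  have hFAe : ∀ A (g : G) y, FA A (g • y) = h g (FA A y) := by
    intro A g y
    simp only [hFA, hωinv, hF, hD]
    rw [affine_apply (h g) (D y + _), affine_apply (h g) (D y), affine_apply (h g) (F y)]
    simp only [map_add, map_smul, map_sub, add_sub_add_right_eq_sub]
    abel
  have htel : ∀ A, wInt μ D e S ρ φ (FA A) = wInt μ D e S ρ φ D := by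
    intro A
    induction A using Finset.induction_on with
    | empty =>
      congr 1
      ext y
      simp [hFA]
    | insert j A hj ih =>
      rw [← ih]
      refine one_step_w μ hPD hDloc hD hdet he hS hSe hdisj hρ hρ0 hsum hφ hC hφi (hFAl _)
        (hFAl _) (hFAe _) (hFAe _) j fun y hy => ?_
      simp only [hFA]
      rw [Finset.sum_insert hj, hω0 j y hy, zero_add]
  have hF_univ : FA Finset.univ = F := by
    ext y
    simp only [hFA, hωsum, one_smul]
    abel
  have h1 := htel Finset.univ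
  rw [hF_univ] at h1
  have hvF : wInt μ D e S ρ φ F = 0 := by
    unfold wInt
    apply Finset.sum_eq_zero
    intro j _
    have : ∀ x, ρ j ((e j).symm x) *
        (φ (F ((e j).symm x)) * (dd D F ((e j).symm x)).det) = 0 := by
      intro x
      have : φ (F ((e j).symm x)) = 0 := by
        simp only [hφdef, Set.indicator, if_neg (hmiss _)]
      rw [this, zero_mul, mul_zero]
    simp only [this, integral_zero]
  have hval : ∀ j, ∫ x in D '' S j, ρ j ((e j).symm x) *
      (φ (D ((e j).symm x)) * (dd D D ((e j).symm x)).det) ∂μ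
      = ∫ x in D '' S j, ρ j ((e j).symm x) * φ x ∂μ := by
    intro j
    apply setIntegral_congr_fun (isCompact_image (he j) (hSe j) (hS j)).measurableSet
    intro x hx
    simp only
    have hx' := image_subset_target (he j) (hSe j) hx
    have h2 : dd D D ((e j).symm x) = ContinuousLinearMap.id ℝ V := by
      rw [dd_symm D (he j) hx']
      have : D ∘ (e j).symm =ᶠ[𝓝 x] id := by
        filter_upwards [(e j).open_target.mem_nhds hx'] with w hw
        simp only [Function.comp_apply, id]
        exact D_symm (he j) hw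
      rw [this.fderiv_eq, fderiv_id]
    rw [h2, D_symm (he j) hx']
    simp [ContinuousLinearMap.det]
  have hφnn : ∀ x, 0 ≤ φ x := by
    intro x
    simp only [hφdef, Set.indicator]
    split_ifs <;> simp
  have hnn : ∀ j x, 0 ≤ ρ j ((e j).symm x) * φ x := fun j x => mul_nonneg (hρnn _ _) (hφnn _)
  have hzero : ∀ j, ∫ x in D '' S j, ρ j ((e j).symm x) * φ x ∂μ = 0 := by
    rw [hvF] at h1
    unfold wInt at h1
    simp_rw [hval] at h1
    have h2 := (Finset.sum_eq_zero_iff_of_nonneg (s := Finset.univ)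
      (f := fun j => ∫ x in D '' S j, ρ j ((e j).symm x) * φ x ∂μ)
      (fun j _ => integral_nonneg fun x => hnn j x)).mp h1.symm
    exact fun j => h2 j (Finset.mem_univ j)
  have hae : ∀ j, ∀ᵐ x ∂(μ.restrict (D '' S j)), ρ j ((e j).symm x) * φ x = 0 := by
    intro j
    have hint : IntegrableOn (fun x => ρ j ((e j).symm x) * φ x) (D '' S j) μ := by
      have h3 : IntegrableOn (fun x => ρ j ((e j).symm x)) (D '' S j) μ := by
        apply ContinuousOn.integrableOn_compact (isCompact_image (he j) (hSe j) (hS j))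
        exact (hρc j).comp_continuousOn
          ((e j).continuousOn_symm.mono (image_subset_target (he j) (hSe j)))
      have h4 := h3.bdd_mul (f := φ) (c := 1) hφ.aestronglyMeasurable
        (ae_of_all _ fun x => by rw [Real.norm_eq_abs]; exact hC x)
      refine h4.congr (ae_of_all _ fun x => ?_)
      simp only
      ring
    have h5 := (setIntegral_eq_zero_iff_of_nonneg_ae (ae_of_all _ fun x => hnn j x) hint).mp
      (hzero j)
    filter_upwards [h5] with x hx
    exact hx
  -- local conclusion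
  apply measure_null_of_locally_null
  rintro _ ⟨_, y, rfl⟩
  obtain ⟨T, hT⟩ := hTex y
  have hs := hsum y T hT
  have hex : ∃ g ∈ T, 0 < ∑ j, ρ j (g • y) := by
    by_contra hcon
    push Not at hcon
    have := Finset.sum_nonpos hcon
    linarith
  obtain ⟨g, _, hg⟩ := hex
  have hex2 : ∃ j, 0 < ρ j (g • y) := by
    by_contra hcon
    push Not at hcon
    have := Finset.sum_nonpos (s := Finset.univ) fun j _ => hcon j
    linarith
  obtain ⟨j, hj⟩ := hex2
  have hzS : g • y ∈ S j := by
    by_contra hcon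
    rw [hρ0 j _ hcon] at hj
    exact lt_irrefl _ hj
  set N : Set V := D '' ((e j).source ∩ {w | 0 < ρ j w}) with hN
  have hopen : IsOpen N :=
    hDloc.isOpenMap _ ((e j).open_source.inter (isOpen_lt continuous_const (hρc j)))
  have hNS : N ⊆ D '' S j := by
    rintro _ ⟨w, ⟨hw, hw'⟩, rfl⟩
    rw [mem_ofPred_eq] at hw'
    refine ⟨w, ?_, rfl⟩
    by_contra hcon
    rw [hρ0 j w hcon] at hw'
    exact lt_irrefl _ hw'
  have hBN : μ (B ∩ N) = 0 := by
    have h6 : ∀ᵐ x ∂(μ.restrict N), ρ j ((e j).symm x) * φ x = 0 :=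
      ae_restrict_of_ae_restrict_of_subset hNS (hae j)
    rw [ae_restrict_iff' hopen.measurableSet, ae_iff] at h6
    refine measure_mono_null ?_ h6
    rintro x ⟨hxB, hxN⟩
    simp only [mem_ofPred_eq, Classical.not_imp]
    refine ⟨hxN, ?_⟩
    obtain ⟨w, ⟨hw, hw'⟩, rfl⟩ := hxN
    rw [mem_ofPred_eq] at hw'
    rw [symm_D (he j) hw]
    have : φ (D w) = 1 := by simp only [hφdef, Set.indicator, if_pos hxB]
    rw [this, mul_one]
    exact hw'.ne'
  have hgy : D (g • y) ∈ N := ⟨g • y, ⟨hSe j hzS, hj⟩, rfl⟩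
  have hpre : (h g) ⁻¹' N ∈ 𝓝 (D y) := by
    have hc : Continuous (h g) :=
      (AffineEquiv.toContinuousAffineEquiv (h g)).continuous
    apply (hopen.preimage hc).mem_nhds
    rw [mem_preimage, ← hD]
    exact hgy
  refine ⟨B ∩ range D ∩ (h g) ⁻¹' N, inter_mem self_mem_nhdsWithin
    (mem_nhdsWithin_of_mem_nhds hpre), ?_⟩
  have hmp := measurePreserving_hol μ hdet g
  have hsub : B ∩ range D ∩ (h g) ⁻¹' N ⊆ (h g) ⁻¹' (B ∩ N) := by
    rintro x ⟨⟨hxB, _⟩, hxN⟩
    exact ⟨hBinv g x hxB, hxN⟩
  refine measure_mono_null hsub ?_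
  rw [hmp.measure_preimage (hB.inter hopen.measurableSet).nullMeasurableSet]
  exact hBN

/-- An invariant locally Lipschitz retract contains the developing image. -/
theorem range_subset_retract (hPD : PD G Y)
    (hfree : ∀ (g : G) (y : Y), g • y = y → g = 1) (hDloc : IsLocalHomeomorph D)
    (hD : ∀ (g : G) y, D (g • y) = h g (D y))
    (hdet : ∀ g, |LinearMap.det ((h g).linear : V →ₗ[ℝ] V)| = 1)
    (hcoc : ∃ K : Set Y, IsCompact K ∧ ∀ y, ∃ g : G, g • y ∈ K)
    {A : Set V} (hAinv : ∀ (g : G), ∀ x ∈ A, h g x ∈ A) {r : V → V} (hr : LocallyLipschitz r)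
    (hrA : ∀ x, r x ∈ A) (hrid : ∀ x ∈ A, r x = x) : range D ⊆ A := by
  obtain ⟨F, hFl, hFe, hFA⟩ :=
    exists_map_to_retract hPD hfree hDloc hD hcoc hAinv hr hrA hrid
  have hAeq : A = {x | r x = x} := by
    ext x
    refine ⟨fun hx => hrid x hx, fun hx => ?_⟩
    have hx' : r x = x := hx
    rw [← hx']
    exact hrA x
  have hAc : IsClosed A := by
    rw [hAeq]
    exact isClosed_eq hr.continuous continuous_id
  have h1 := missed_null Measure.addHaar hPD hfree hDloc hD hdet hcoc hFl hFe
    (B := Aᶜ) hAc.isOpen_compl.measurableSet (fun g x hx hcon => hx (by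
      have := hAinv g⁻¹ _ hcon
      rwa [hol_inv_apply] at this)) (fun y hy => hy (hFA y))
  have hopen : IsOpen (Aᶜ ∩ range D) := hAc.isOpen_compl.inter hDloc.isOpenMap.isOpen_range
  have h2 : Aᶜ ∩ range D = ∅ := hopen.measure_eq_zero_iff Measure.addHaar |>.mp h1
  intro x hx
  by_contra hcon
  have : x ∈ Aᶜ ∩ range D := ⟨hcon, hx⟩
  rw [h2] at this
  exact this

end Pool.Agent.Helper4.MKT
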