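import Pool.Agent.Helper4.MKT.Ruled
import Pool.Agent.Helper2.MK.Data

/-!
# The boundary of the universal domain of a Kleinian affine manifold with parallel volume

Let `M = Γ\Ω` be a compact affine manifold with parallel volume whose developing map is injective
with image `Ω`, a domain in a finite-dimensional real vector space `V` (for instance `ℝⁿ`).  We
show that through every boundary point of `Ω` passes an affine line contained in the boundary of
`Ω`, while the complement of `Ω` contains no affine hyperplane.

In particular (theorem `complete_of_no_line`) the Markus conjecture holds for `M = Γ\Ω` unless the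
complement of `Ω` contains an affine line but no affine hyperplane.

Idea of the proof.  If `γ_t k_t` tends to a boundary point `a`, where `k_t` stays in a compact
fundamental set, then the linear parts of `γ_t` are unbounded, and the limit of the directions of
maximal expansion is the direction of a line in the boundary, since `Γ` acts properly
discontinuously on `Ω`.  A hyperplane in the complement would confine `Ω`, and hence its convex
hull, which is invariant, to a half-space; but no proper convex set is invariant.
-/

set_option autoImplicit false

open Set MeasureTheory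

namespace Pool.Agent.Helper4.MKT.RuledBoundary

open Pool.Agent.Helper2.MK

/-- If the developing map of a compact affine manifold with parallel volume is injective, then
through every boundary point of its image `Ω` passes an affine line contained in the boundary, and
every affine hyperplane meets `Ω`. -/
theorem result {V G Y : Type*} [NormedAddCommGroup V] [NormedSpace ℝ V] [FiniteDimensional ℝ V]
    [Group G] [TopologicalSpace Y] [T2Space Y] [ConnectedSpace Y] [MulAction G Y]
    (M : AffineDeveloping V G Y) (hinj : Function.Injective M.dev) :
    (∀ a ∈ frontier (range M.dev), ∃ v : V, v ≠ 0 ∧ ∀ t : ℝ, a + t • v ∈ frontier (range M.dev)) ∧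
    (∀ f : V →ₗ[ℝ] ℝ, f ≠ 0 → ∀ c : ℝ, ∃ y : Y, f (M.dev y) = c) := by
  have : ContinuousConstSMul G Y := ⟨M.covering.continuous_smul⟩
  let _ : MeasurableSpace V := borel V
  have : BorelSpace V := ⟨rfl⟩
  constructor
  · intro a ha
    exact Pool.Agent.Helper4.MKT.line_in_frontier (h := M.holHom)
      (fun K hK => M.covering.proper K hK) M.dev_local M.dev_smul M.volume_hol
      M.covering.cocompact hinj ha
  · intro f hf c
    by_contra hcon
    push Not at hcon
    have hfc : Continuous f := f.continuous_of_finiteDimensional
    have hconn : IsPreconnected (range fun y => f (M.dev y)) :=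
      isPreconnected_range (hfc.comp M.dev_local.continuous)
    -- the range lies on one side
    have hside : (∀ y, f (M.dev y) < c) ∨ (∀ y, c < f (M.dev y)) := by
      by_contra h2
      push Not at h2
      obtain ⟨⟨y1, h1⟩, ⟨y2, h2⟩⟩ := h2
      obtain ⟨y, hy⟩ := hconn.Icc_subset ⟨y2, rfl⟩ ⟨y1, rfl⟩ ⟨h2, h1⟩
      exact hcon y hy
    have hinv : ∀ (g : G), ∀ x ∈ convexHull ℝ (range M.dev),
        M.holHom g x ∈ convexHull ℝ (range M.dev) := by
      intro g x hx
      have h1 : (M.holHom g : V →ᵃ[ℝ] V) '' (convexHull ℝ (range M.dev)) =
          convexHull ℝ ((M.holHom g : V →ᵃ[ℝ] V) '' range M.dev) :=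
        AffineMap.image_convexHull _ _
      have h2 : (M.holHom g : V →ᵃ[ℝ] V) '' range M.dev ⊆ range M.dev := by
        rintro _ ⟨_, ⟨y, rfl⟩, rfl⟩
        exact ⟨g • y, M.dev_smul g y⟩
      have h3 : M.holHom g x ∈ (M.holHom g : V →ᵃ[ℝ] V) '' (convexHull ℝ (range M.dev)) :=
        ⟨x, hx, rfl⟩
      rw [h1] at h3
      exact convexHull_mono h2 h3
    obtain ⟨y₀⟩ : Nonempty Y := inferInstance
    have hmem : M.dev y₀ ∈ convexHull ℝ (range M.dev) :=
      subset_convexHull ℝ _ (mem_range_self y₀)
    have huniv := no_invariant_star (h := M.holHom) (fun K hK => M.covering.proper K hK)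
      M.covering.free M.dev_local M.dev_smul M.volume_hol M.covering.cocompact hinv hmem
      ((convex_convexHull ℝ _) hmem)
    obtain ⟨v, hv⟩ : ∃ v, f v ≠ 0 := by
      by_contra h0
      push Not at h0
      exact hf (LinearMap.ext h0)
    have hx : ∀ s : ℝ, ((s / f v) • v) ∈ convexHull ℝ (range M.dev) := fun s => by
      rw [huniv]; exact mem_univ _
    have hfx : ∀ s : ℝ, f ((s / f v) • v) = s := by
      intro s
      rw [map_smul, smul_eq_mul, div_mul_cancel₀ _ hv]
    rcases hside with hs | hs
    · have hsub : convexHull ℝ (range M.dev) ⊆ {x | f x < c} := by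
        apply convexHull_min
        · rintro _ ⟨y, rfl⟩
          exact hs y
        · exact (convex_Iio c).is_linear_preimage f.isLinear
      have h4 := hsub (hx c)
      rw [mem_ofPred_eq, hfx] at h4
      exact lt_irrefl _ h4
    · have hsub : convexHull ℝ (range M.dev) ⊆ {x | c < f x} := by
        apply convexHull_min
        · rintro _ ⟨y, rfl⟩
          exact hs y
        · exact (convex_Ioi c).is_linear_preimage f.isLinear
      have h4 := hsub (hx c)
      rw [mem_ofPred_eq, hfx] at h4
      exact lt_irrefl _ h4

/-- The Markus conjecture for compact affine manifolds with injective developing map whose image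
meets every affine line. -/
theorem complete_of_no_line {V G Y : Type*} [NormedAddCommGroup V] [NormedSpace ℝ V]
    [FiniteDimensional ℝ V] [Group G] [TopologicalSpace Y] [T2Space Y] [ConnectedSpace Y]
    [MulAction G Y] (M : AffineDeveloping V G Y) (hinj : Function.Injective M.dev)
    (hline : ∀ a v : V, v ≠ 0 → ∃ t : ℝ, a + t • v ∈ range M.dev) :
    ∃ e : Y ≃ₜ V, ⇑e = M.dev := by
  have hopen : IsOpen (range M.dev) := M.dev_local.isOpenMap.isOpen_range
  have h1 : range M.dev = univ := by
    by_contra hne
    obtain ⟨a, ha⟩ : (frontier (range M.dev)).Nonempty :=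
      nonempty_frontier_iff.mpr ⟨range_nonempty _, hne⟩
    obtain ⟨v, hv, hva⟩ := (result M hinj).1 a ha
    obtain ⟨t, ht⟩ := hline a v hv
    have h2 := hva t
    rw [hopen.frontier_eq] at h2
    exact h2.2 ht
  exact ⟨M.dev_local.toHomeomorphOfBijective ⟨hinj, range_eq_univ.mp h1⟩, rfl⟩

end Pool.Agent.Helper4.MKT.RuledBoundary
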