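import Pool.Agent.Helper2.MK.NLLocal

/-!
# The weighted null Lagrangian property

For Lipschitz maps `A₀`, `A₁` of a finite-dimensional space that agree outside a set `B` of finite
measure and a bounded Borel function `φ`, the integrals over `B` of `φ (A x) det (DA x)` agree.
-/

set_option autoImplicit false
set_option linter.unusedSectionVars false

open Set MeasureTheory Metric Filter Topology
open scoped NNReal ENNReal BoundedContinuousFunction

namespace Pool.Agent.Helper4.MKT

open Pool.Agent.Helper2.MK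

section ext

variable {ι : Type*} [Fintype ι]

/-- A finite measure on `ι → ℝ` is determined by the integrals of products of functions of the
coordinates. -/
theorem ext_pi {m₁ m₂ : Measure (ι → ℝ)} [IsFiniteMeasure m₁] [IsFiniteMeasure m₂]
    (h : ∀ f : ι → (ℝ →ᵇ ℝ), ∫ x, ∏ i, f i (x i) ∂m₁ = ∫ x, ∏ i, f i (x i) ∂m₂) : m₁ = m₂ := by
  have hm : Measurable (fun x : ι → ℝ => (x, ())) := by fun_prop
  have h1 : m₁.map (fun x => (x, ())) = m₂.map (fun x => (x, ())) := by
    have : IsFiniteMeasure (m₁.map (fun x : ι → ℝ => (x, ()))) := Measure.isFiniteMeasure_map _ _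
    have : IsFiniteMeasure (m₂.map (fun x : ι → ℝ => (x, ()))) := Measure.isFiniteMeasure_map _ _
    apply Measure.ext_of_integral_prod_mul_boundedContinuousFunction
    intro f g
    have hs : StronglyMeasurable (fun p : (ι → ℝ) × Unit => (∏ i, f i (p.1 i)) * g p.2) := by
      apply Continuous.stronglyMeasurable
      fun_prop
    rw [integral_map hm.aemeasurable hs.aestronglyMeasurable,
      integral_map hm.aemeasurable hs.aestronglyMeasurable]
    simp only
    rw [integral_mul_const, integral_mul_const, h f]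
  have h2 : ∀ m : Measure (ι → ℝ), (m.map (fun x => (x, ()))).map Prod.fst = m := by
    intro m
    rw [Measure.map_map measurable_fst hm]
    exact Measure.map_id
  rw [← h2 m₁, h1, h2]

end ext

section theta

variable {V : Type*} [NormedAddCommGroup V] [NormedSpace ℝ V] [FiniteDimensional ℝ V]
variable {ι : Type*} [Fintype ι] [DecidableEq ι]

/-- The map with Jacobian determinant `∏ f i (x i)` in the coordinates `E`. -/
noncomputable def theta (E : V ≃L[ℝ] (ι → ℝ)) (f : ι → (ℝ →ᵇ ℝ)) (x : V) : V :=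
  E.symm (fun i => ∫ t in (0 : ℝ)..(E x i), f i t)

/-- The derivative of `theta`. -/
noncomputable def dtheta (E : V ≃L[ℝ] (ι → ℝ)) (f : ι → (ℝ →ᵇ ℝ)) (x : V) : V →L[ℝ] V :=
  (E.symm : (ι → ℝ) →L[ℝ] V).comp
    ((ContinuousLinearMap.pi fun i => (f i (E x i)) • ContinuousLinearMap.proj (R := ℝ) i).comp
      (E : V →L[ℝ] (ι → ℝ)))

theorem theta_hasFDerivAt (E : V ≃L[ℝ] (ι → ℝ)) (f : ι → (ℝ →ᵇ ℝ)) (x : V) :
    HasFDerivAt (theta E f) (dtheta E f x) x := by
  apply HasFDerivAt.comp x E.symm.hasFDerivAt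
  rw [hasFDerivAt_pi']
  intro i
  have h1 : HasDerivAt (fun u => ∫ t in (0 : ℝ)..u, f i t) (f i (E x i)) (E x i) :=
    ((f i).continuous.integral_hasStrictDerivAt 0 (E x i)).hasDerivAt
  have h2 : HasFDerivAt (fun x : V => E x i)
      ((ContinuousLinearMap.proj (R := ℝ) i).comp (E : V →L[ℝ] (ι → ℝ))) x :=
    ((ContinuousLinearMap.proj (R := ℝ) i).comp (E : V →L[ℝ] (ι → ℝ))).hasFDerivAt
  have h3 := h1.comp_hasFDerivAt x h2
  refine h3.congr_fderiv ?_
  ext v
  simp

theorem dtheta_det (E : V ≃L[ℝ] (ι → ℝ)) (f : ι → (ℝ →ᵇ ℝ)) (x : V) :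
    (dtheta E f x).det = ∏ i, f i (E x i) := by
  have h1 : ((dtheta E f x : V →L[ℝ] V) : V →ₗ[ℝ] V) =
      (E.symm.toLinearEquiv : (ι → ℝ) →ₗ[ℝ] V) ∘ₗ
        (Matrix.toLin' (Matrix.diagonal fun i => f i (E x i))) ∘ₗ
        (E.symm.toLinearEquiv.symm : V →ₗ[ℝ] (ι → ℝ)) := by
    apply LinearMap.ext
    intro v
    have h2 : (fun i => f i (E x i) * E v i) =
        (Matrix.diagonal fun i => f i (E x i)).mulVec (E v) := by
      funext i
      rw [Matrix.mulVec_diagonal]
    exact congrArg E.symm h2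
  unfold ContinuousLinearMap.det
  rw [h1, LinearMap.det_conj, LinearMap.det_toLin', Matrix.det_diagonal]

theorem theta_lipschitz (E : V ≃L[ℝ] (ι → ℝ)) (f : ι → (ℝ →ᵇ ℝ)) :
    ∃ C : ℝ≥0, LipschitzWith C (theta E f) := by
  have h1 : LipschitzWith (∑ i, ‖f i‖₊) (fun y : ι → ℝ => fun i => ∫ t in (0 : ℝ)..(y i), f i t) := by
    apply LipschitzWith.of_dist_le_mul
    intro y z
    rw [dist_pi_le_iff (by positivity)]
    intro i
    rw [Real.dist_eq, intervalIntegral.integral_interval_sub_left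
      ((f i).continuous.intervalIntegrable _ _) ((f i).continuous.intervalIntegrable _ _)]
    have h2 : ‖∫ t in (z i)..(y i), f i t‖ ≤ ‖f i‖ * |y i - z i| :=
      intervalIntegral.norm_integral_le_of_norm_le_const fun t _ => (f i).norm_coe_le_norm t
    rw [← Real.norm_eq_abs]
    refine h2.trans ?_
    have h3 : |y i - z i| ≤ dist y z := by
      rw [← Real.dist_eq]
      exact dist_le_pi_dist y z i
    have h4 : ‖f i‖ ≤ ((∑ i, ‖f i‖₊ : ℝ≥0) : ℝ) := by
      rw [NNReal.coe_sum]
      exact Finset.single_le_sum (f := fun i => ((‖f i‖₊ : ℝ≥0) : ℝ))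
        (fun j _ => NNReal.coe_nonneg _) (Finset.mem_univ i)
    gcongr
  exact ⟨_, E.symm.lipschitz.comp (h1.comp E.lipschitz)⟩

end theta

section weight

variable {V : Type*} [NormedAddCommGroup V] [NormedSpace ℝ V] [FiniteDimensional ℝ V]
  [MeasurableSpace V] [BorelSpace V] (μ : Measure V) [μ.IsAddHaarMeasure]

theorem det_comp_apply (S T : V →L[ℝ] V) : (S.comp T).det = S.det * T.det := by
  unfold ContinuousLinearMap.det
  rw [ContinuousLinearMap.toLinearMap_comp, LinearMap.det_comp]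

theorem measurable_det_fderiv (A : V → V) : Measurable fun x => (fderiv ℝ A x).det := by
  have : CompleteSpace V := FiniteDimensional.complete ℝ V
  exact ContinuousLinearMap.continuous_det.measurable.comp (measurable_fderiv ℝ A)

theorem det_fderiv_bdd {A : V → V} {L : ℝ≥0} (hA : LipschitzWith L A) :
    ∃ M : ℝ, ∀ x, ‖(fderiv ℝ A x).det‖ ≤ M := by
  have hcomp : IsCompact (closedBall (0 : V →L[ℝ] V) L) := by
    have : ProperSpace (V →L[ℝ] V) := FiniteDimensional.proper ℝ _
    exact isCompact_closedBall _ _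
  obtain ⟨M, hM⟩ := hcomp.exists_bound_of_continuousOn
    (ContinuousLinearMap.continuous_det (𝕜 := ℝ) (E := V)).continuousOn
  refine ⟨M, fun x => hM _ ?_⟩
  rw [mem_closedBall, dist_zero_right]
  exact norm_fderiv_le_of_lipschitz ℝ hA

/-- The null Lagrangian property with a product weight. -/
theorem nl_prod {ι : Type*} [Fintype ι] [DecidableEq ι] (E : V ≃L[ℝ] (ι → ℝ)) (f : ι → (ℝ →ᵇ ℝ))
    {A₀ A₁ : V → V} {L : ℝ≥0} (h0 : LipschitzWith L A₀) (h1 : LipschitzWith L A₁)
    {B : Set V} (hB : MeasurableSet B) (hBf : μ B ≠ ∞) (hout : ∀ x ∉ B, A₀ x = A₁ x) :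
    ∫ x in B, (∏ i, f i (E (A₁ x) i)) * (fderiv ℝ A₁ x).det ∂μ =
      ∫ x in B, (∏ i, f i (E (A₀ x) i)) * (fderiv ℝ A₀ x).det ∂μ := by
  obtain ⟨C, hC⟩ := theta_lipschitz E f
  have hmain := nl_global μ (hC.comp h0) (hC.comp h1) hB hBf (fun x hx => by
    simp only [Function.comp_apply, hout x hx])
  have key : ∀ {A : V → V}, LipschitzWith L A →
      ∫ x in B, (fderiv ℝ (theta E f ∘ A) x).det ∂μ =
        ∫ x in B, (∏ i, f i (E (A x) i)) * (fderiv ℝ A x).det ∂μ := by
    intro A hA
    apply integral_congr_ae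
    apply ae_restrict_of_ae
    filter_upwards [hA.ae_differentiableAt (μ := μ)] with x hx
    have h2 := (theta_hasFDerivAt E f (A x)).comp x hx.hasFDerivAt
    rw [h2.fderiv, det_comp_apply, dtheta_det]
  rw [key h0, key h1] at hmain
  exact hmain

/-- The positive (for `s = 1`) or negative (for `s = -1`) part of the image of `det DA` under
`A`. -/
noncomputable def push (s : ℝ) (A : V → V) (B : Set V) : Measure V :=
  ((μ.restrict B).withDensity fun x => ((Real.toNNReal (s * (fderiv ℝ A x).det) : ℝ≥0) : ℝ≥0∞)).map A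

theorem push_finite (s : ℝ) {A : V → V} {L : ℝ≥0} (hA : LipschitzWith L A) {B : Set V}
    (hBf : μ B ≠ ∞) : IsFiniteMeasure (push μ s A B) := by
  obtain ⟨M, hM⟩ := det_fderiv_bdd hA
  have : IsFiniteMeasure ((μ.restrict B).withDensity
      fun x => ((Real.toNNReal (s * (fderiv ℝ A x).det) : ℝ≥0) : ℝ≥0∞)) := by
    apply isFiniteMeasure_withDensity
    have h1 : ∀ x, ((Real.toNNReal (s * (fderiv ℝ A x).det) : ℝ≥0) : ℝ≥0∞) ≤
        ENNReal.ofReal (|s| * M) := by
      intro x
      apply ENNReal.ofReal_le_ofReal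
      refine (le_abs_self _).trans ?_
      rw [abs_mul]
      gcongr
      exact hM x
    refine ne_top_of_le_ne_top ?_ (lintegral_mono h1)
    rw [lintegral_const, Measure.restrict_apply_univ]
    exact ENNReal.mul_ne_top ENNReal.ofReal_ne_top hBf
  exact Measure.isFiniteMeasure_map _ _

theorem integral_push (s : ℝ) {A : V → V} {L : ℝ≥0} (hA : LipschitzWith L A) (B : Set V)
    {φ : V → ℝ} (hφ : Measurable φ) :
    ∫ y, φ y ∂(push μ s A B) =
      ∫ x in B, (Real.toNNReal (s * (fderiv ℝ A x).det) : ℝ) * φ (A x) ∂μ := by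
  unfold push
  rw [integral_map hA.continuous.measurable.aemeasurable hφ.aestronglyMeasurable,
    integral_withDensity_eq_integral_smul
      ((measurable_det_fderiv A).const_mul s).real_toNNReal]
  rfl

theorem integrable_part (s : ℝ) {A : V → V} {L : ℝ≥0} (hA : LipschitzWith L A) {B : Set V}
    (hBf : μ B ≠ ∞) {φ : V → ℝ} (hφ : Measurable φ) {C : ℝ} (hC : ∀ x, |φ x| ≤ C) :
    IntegrableOn (fun x => (Real.toNNReal (s * (fderiv ℝ A x).det) : ℝ) * φ (A x)) B μ := by
  obtain ⟨M, hM⟩ := det_fderiv_bdd hA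
  apply Measure.integrableOn_of_bounded hBf (M := |s| * M * C)
  · exact ((((measurable_det_fderiv A).const_mul s).real_toNNReal.coe_nnreal_real).mul
      (hφ.comp hA.continuous.measurable)).aestronglyMeasurable
  · apply ae_of_all
    intro x
    rw [norm_mul, Real.norm_eq_abs, Real.norm_eq_abs, NNReal.abs_eq, Real.coe_toNNReal']
    have h1 : max (s * (fderiv ℝ A x).det) 0 ≤ |s| * M := by
      apply max_le
      · refine (le_abs_self _).trans ?_
        rw [abs_mul]
        gcongr
        exact hM x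
      · exact mul_nonneg (abs_nonneg _) ((norm_nonneg _).trans (hM x))
    exact mul_le_mul h1 (hC _) (abs_nonneg _) ((le_max_right _ _).trans h1)

theorem split_integral {A : V → V} {L : ℝ≥0} (hA : LipschitzWith L A) {B : Set V}
    (hBf : μ B ≠ ∞) {φ : V → ℝ} (hφ : Measurable φ) {C : ℝ} (hC : ∀ x, |φ x| ≤ C) :
    ∫ x in B, φ (A x) * (fderiv ℝ A x).det ∂μ =
      (∫ y, φ y ∂(push μ 1 A B)) - ∫ y, φ y ∂(push μ (-1) A B) := by
  rw [integral_push μ 1 hA B hφ, integral_push μ (-1) hA B hφ,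
    ← integral_sub (integrable_part μ 1 hA hBf hφ hC) (integrable_part μ (-1) hA hBf hφ hC)]
  congr 1
  funext x
  rw [Real.coe_toNNReal', Real.coe_toNNReal', ← sub_mul, one_mul, neg_one_mul]
  have : max (fderiv ℝ A x).det 0 - max (-(fderiv ℝ A x).det) 0 = (fderiv ℝ A x).det := by
    rcases le_total 0 (fderiv ℝ A x).det with h | h
    · rw [max_eq_left h, max_eq_right (by linarith), sub_zero]
    · rw [max_eq_right h, max_eq_left (by linarith)]; ring
  rw [this, mul_comm]

/-- **Weighted null Lagrangian property**, global Lipschitz version. -/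
theorem nl_weight {A₀ A₁ : V → V} {L : ℝ≥0} (h0 : LipschitzWith L A₀) (h1 : LipschitzWith L A₁)
    {B : Set V} (hB : MeasurableSet B) (hBf : μ B ≠ ∞) (hout : ∀ x ∉ B, A₀ x = A₁ x)
    {φ : V → ℝ} (hφ : Measurable φ) {C : ℝ} (hC : ∀ x, |φ x| ≤ C) :
    ∫ x in B, φ (A₁ x) * (fderiv ℝ A₁ x).det ∂μ =
      ∫ x in B, φ (A₀ x) * (fderiv ℝ A₀ x).det ∂μ := by
  classical
  have f00 := push_finite μ 1 h0 hBf
  have f01 := push_finite μ (-1) h0 hBf
  have f10 := push_finite μ 1 h1 hBf
  have f11 := push_finite μ (-1) h1 hBf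
  let E : V ≃L[ℝ] (Fin (Module.finrank ℝ V) → ℝ) :=
    ContinuousLinearEquiv.ofFinrankEq (by simp)
  have hEm : Measurable E := E.continuous.measurable
  have key : push μ 1 A₁ B + push μ (-1) A₀ B = push μ 1 A₀ B + push μ (-1) A₁ B := by
    have h2 : (push μ 1 A₁ B + push μ (-1) A₀ B).map E =
        (push μ 1 A₀ B + push μ (-1) A₁ B).map E := by
      have : IsFiniteMeasure ((push μ 1 A₁ B + push μ (-1) A₀ B).map E) :=
        Measure.isFiniteMeasure_map _ _
      have : IsFiniteMeasure ((push μ 1 A₀ B + push μ (-1) A₁ B).map E) :=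
        Measure.isFiniteMeasure_map _ _
      apply ext_pi
      intro f
      have hc : Continuous (fun x : Fin (Module.finrank ℝ V) → ℝ => ∏ i, f i (x i)) := by
        fun_prop
      rw [integral_map hEm.aemeasurable hc.aestronglyMeasurable,
        integral_map hEm.aemeasurable hc.aestronglyMeasurable]
      set ψ : V → ℝ := fun x => ∏ i, f i (E x i) with hψ
      have hψm : Measurable ψ := (hc.comp E.continuous).measurable
      have hψb : ∀ x, |ψ x| ≤ ∏ i, ‖f i‖ := by
        intro x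
        rw [hψ, Finset.abs_prod]
        exact Finset.prod_le_prod (fun i _ => abs_nonneg _) fun i _ => (f i).norm_coe_le_norm _
      have hint : ∀ (m : Measure V) [IsFiniteMeasure m], Integrable ψ m := fun m _ =>
        Integrable.of_bound hψm.aestronglyMeasurable (∏ i, ‖f i‖) (ae_of_all _ hψb)
      rw [integral_add_measure (hint _) (hint _), integral_add_measure (hint _) (hint _)]
      have e1 := split_integral μ h1 hBf hψm hψb
      have e0 := split_integral μ h0 hBf hψm hψb
      have e := nl_prod μ E f h0 h1 hB hBf hout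
      have e' : ∫ x in B, ψ (A₁ x) * (fderiv ℝ A₁ x).det ∂μ =
        ∫ x in B, ψ (A₀ x) * (fderiv ℝ A₀ x).det ∂μ := e
      rw [e1, e0] at e'
      linarith
    have hemb : MeasurableEmbedding E := E.toHomeomorph.measurableEmbedding
    exact hemb.map_injective h2
  have hint : ∀ (m : Measure V) [IsFiniteMeasure m], Integrable φ m := fun m _ =>
    Integrable.of_bound hφ.aestronglyMeasurable C (ae_of_all _ hC)
  have e : ∫ y, φ y ∂(push μ 1 A₁ B + push μ (-1) A₀ B) =
      ∫ y, φ y ∂(push μ 1 A₀ B + push μ (-1) A₁ B) := by rw [key]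
  rw [integral_add_measure (hint _) (hint _), integral_add_measure (hint _) (hint _)] at e
  rw [split_integral μ h1 hBf hφ hC, split_integral μ h0 hBf hφ hC]
  linarith

/-- **Weighted null Lagrangian property**, local version. -/
theorem nl_weight_local {O S : Set V} (hO : IsOpen O) (hS : IsCompact S) (hSO : S ⊆ O)
    {G₀ G₁ : V → V} (h0 : LocallyLipschitzOn O G₀) (h1 : LocallyLipschitzOn O G₁)
    (heq : ∀ x ∈ O \ S, G₀ x = G₁ x) {φ : V → ℝ} (hφ : Measurable φ) {C : ℝ}
    (hC : ∀ x, |φ x| ≤ C) :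
    ∫ x in S, φ (G₁ x) * (fderiv ℝ G₁ x).det ∂μ =
      ∫ x in S, φ (G₀ x) * (fderiv ℝ G₀ x).det ∂μ := by
  classical
  have : ProperSpace V := FiniteDimensional.proper ℝ V
  obtain ⟨S', hS'c, hSS', hS'O⟩ := exists_compact_between hS hO hSO
  obtain ⟨L₀, hL₀⟩ := (h0.mono hS'O).exists_lipschitzOnWith_of_compact hS'c
  obtain ⟨L₁, hL₁⟩ := (h1.mono hS'O).exists_lipschitzOnWith_of_compact hS'c
  obtain ⟨A₀, hA₀, hA₀eq⟩ := hL₀.extend_finite_dimension
  obtain ⟨L, hL⟩ := glue_lipschitz hS hSS' hA₀ hL₁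
    (fun x hx => by rw [← hA₀eq hx.1]; exact (heq x ⟨hS'O hx.1, hx.2⟩).symm)
  set A₁ : V → V := fun x => if x ∈ S' then G₁ x else A₀ x with hA₁
  have hA₀' : LipschitzWith (max (lipschitzExtensionConstant V * L₀) L) A₀ :=
    hA₀.weaken (le_max_left _ _)
  have hA₁' : LipschitzWith (max (lipschitzExtensionConstant V * L₀) L) A₁ :=
    hL.weaken (le_max_right _ _)
  have hmain := nl_weight μ hA₀' hA₁' hS.measurableSet hS.measure_lt_top.ne (by
    intro x hx
    simp only [hA₁]
    by_cases hx' : x ∈ S'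
    · rw [if_pos hx', ← heq x ⟨hS'O hx', hx⟩]
      exact (hA₀eq hx').symm
    · rw [if_neg hx']) hφ hC
  have e1 : ∫ x in S, φ (A₁ x) * (fderiv ℝ A₁ x).det ∂μ =
      ∫ x in S, φ (G₁ x) * (fderiv ℝ G₁ x).det ∂μ := by
    apply setIntegral_congr_fun hS.measurableSet
    intro x hx
    have hev : A₁ =ᶠ[𝓝 x] G₁ := by
      filter_upwards [isOpen_interior.mem_nhds (hSS' hx)] with y hy
      simp only [hA₁, if_pos (interior_subset hy)]
    simp only
    rw [hev.fderiv_eq, hev.eq_of_nhds]
  have e0 : ∫ x in S, φ (A₀ x) * (fderiv ℝ A₀ x).det ∂μ =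
      ∫ x in S, φ (G₀ x) * (fderiv ℝ G₀ x).det ∂μ := by
    apply setIntegral_congr_fun hS.measurableSet
    intro x hx
    have hev : A₀ =ᶠ[𝓝 x] G₀ := by
      filter_upwards [isOpen_interior.mem_nhds (hSS' hx)] with y hy
      exact (hA₀eq (interior_subset hy)).symm
    simp only
    rw [hev.fderiv_eq, hev.eq_of_nhds]
  rw [← e1, ← e0]
  exact hmain

end weight

end Pool.Agent.Helper4.MKT
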